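import Mathlib

set_option autoImplicit false

namespace Pool.Agent.Results.MP_8dea01_co.Rate

open Filter Topology

/-- Output word produced by the rule `f` (which, given the box content listed by entrance time,
oldest first, names the position of the object to remove) from box content `s` on a given input. -/
def run (f : List Bool → ℕ) : List Bool → List Bool → List Bool
  | _, [] => []
  | s, x :: xs => s.getD (f s) false :: run f (s.eraseIdx (f s) ++ [x]) xs

/-- All outputs of length `n` over all initial contents of size `β` and all inputs. -/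
def outputs (f : List Bool → ℕ) (β n : ℕ) : Set (List Bool) :=
  {y | ∃ s xs : List Bool, s.length = β ∧ xs.length = n ∧ y = run f s xs}

/-- The least number of outputs of length `n` over all time-independent rules. -/
noncomputable def minOutputs (β n : ℕ) : ℕ :=
  sInf {m | ∃ f : List Bool → ℕ, (∀ s : List Bool, s.length = β → f s < β) ∧
    (outputs f β n).ncard = m}

lemma run_length (f : List Bool → ℕ) (s xs : List Bool) : (run f s xs).length = xs.length := by
  induction xs generalizing s with
  | nil => rfl
  | cons x xs ih => simp [run, ih]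

lemma fin_of_len {S : Set (List Bool)} {n : ℕ} (h : ∀ y ∈ S, y.length = n) : S.Finite :=
  (List.finite_length_eq Bool n).subset h

lemma outputs_finite (f : List Bool → ℕ) (β n : ℕ) : (outputs f β n).Finite :=
  fin_of_len (n := n) (by rintro y ⟨s, xs, -, h, rfl⟩; rw [run_length, h])

def lab (f : List Bool → ℕ) (r : List Bool) (x : Bool) : Bool :=
  (r ++ [x]).getD (f (r ++ [x])) false

def nxt (f : List Bool → ℕ) (r : List Bool) (x : Bool) : List Bool :=
  (r ++ [x]).eraseIdx (f (r ++ [x]))

def runR (f : List Bool → ℕ) : List Bool → List Bool → List Bool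
  | _, [] => []
  | r, x :: xs => lab f r x :: runR f (nxt f r x) xs

def fin (f : List Bool → ℕ) : List Bool → List Bool → List Bool
  | r, [] => r
  | r, x :: xs => fin f (nxt f r x) xs

lemma runR_length (f : List Bool → ℕ) (r xs : List Bool) : (runR f r xs).length = xs.length := by
  induction xs generalizing r with
  | nil => rfl
  | cons x xs ih => simp [runR, ih]

lemma run_eq (f : List Bool → ℕ) (r : List Bool) (x z : Bool) (xs : List Bool) :
    run f (r ++ [x]) (xs ++ [z]) = runR f r (x :: xs) := by
  induction xs generalizing r x with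
  | nil => rfl
  | cons y ys ih =>
    have := ih (nxt f r x) y
    simp only [List.cons_append, run, runR] at this ⊢
    rw [← this]
    rfl

lemma runR_append (f : List Bool → ℕ) (r xs ys : List Bool) :
    runR f r (xs ++ ys) = runR f r xs ++ runR f (fin f r xs) ys := by
  induction xs generalizing r with
  | nil => rfl
  | cons x xs ih => simp [runR, fin, ih]

section lower

variable {f : List Bool → ℕ} {b : ℕ}

lemma nxt_length (hf : ∀ s : List Bool, s.length = b + 1 → f s < b + 1) {r : List Bool}
    (hr : r.length = b) (x : Bool) : (nxt f r x).length = b := by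
  have h := hf (r ++ [x]) (by simp [hr])
  unfold nxt
  rw [List.length_eraseIdx_of_lt (by simpa [hr] using h)]
  simp [hr]

lemma fin_length (hf : ∀ s : List Bool, s.length = b + 1 → f s < b + 1) (xs : List Bool) :
    ∀ r : List Bool, r.length = b → (fin f r xs).length = b := by
  induction xs with
  | nil => intro r hr; exact hr
  | cons x xs ih => intro r hr; exact ih _ (nxt_length hf hr x)

lemma count_erase (a : Bool) (s : List Bool) (i : ℕ) (hi : i < s.length) :
    (s.eraseIdx i).count a + [s.getD i false].count a = s.count a := by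
  induction s generalizing i with
  | nil => simp at hi
  | cons y s ih =>
    cases i with
    | zero => simp [List.count_cons]
    | succ i =>
      have := ih i (by simpa using hi)
      simp only [List.eraseIdx_cons_succ, List.count_cons, List.getD_cons_succ] at this ⊢
      omega

lemma count_fin (hf : ∀ s : List Bool, s.length = b + 1 → f s < b + 1) (a : Bool)
    (xs : List Bool) : ∀ r : List Bool, r.length = b →
      (fin f r xs).count a + (runR f r xs).count a = r.count a + xs.count a := by
  induction xs with
  | nil => intro r _; simp [fin, runR]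
  | cons x xs ih =>
    intro r hr
    have h1 := ih _ (nxt_length hf hr x)
    have h2 := count_erase a (r ++ [x]) (f (r ++ [x]))
      (by simpa [hr] using hf (r ++ [x]) (by simp [hr]))
    change (nxt f r x).count a + [lab f r x].count a = _ at h2
    simp only [fin, runR, List.count_cons, List.count_append, List.count_nil] at h1 h2 ⊢
    omega

def Waiting (f : List Bool → ℕ) (r : List Bool) (x : Bool) : Prop :=
  lab f r x = x ∧ nxt f r x = r

lemma fin_of_waiting {r : List Bool} {x : Bool} (h : Waiting f r x) (k : ℕ) :
    fin f r (List.replicate k x) = r := by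
  induction k with
  | zero => rfl
  | succ k ih => rw [List.replicate_succ, fin, h.2, ih]

lemma erase_replicate (x : Bool) (j i : ℕ) (hi : i < j + 1) :
    (List.replicate (j + 1) x).eraseIdx i = List.replicate j x ∧
      (List.replicate (j + 1) x).getD i false = x := by
  constructor
  · rw [List.eraseIdx_replicate]
    simp [hi]
  · simp [List.getD, hi]

lemma waiting_of_ge (hf : ∀ s : List Bool, s.length = b + 1 → f s < b + 1) (x : Bool)
    (w : List Bool) (j : ℕ) (hl : w.length + j = b)
    (hge : w.length ≤ f (w ++ List.replicate j x ++ [x])) :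
    Waiting f (w ++ List.replicate j x) x := by
  have h := hf (w ++ List.replicate j x ++ [x]) (by simp; omega)
  have e : w ++ List.replicate j x ++ [x] = w ++ List.replicate (j + 1) x := by
    rw [List.replicate_succ', List.append_assoc]
  unfold Waiting lab nxt
  generalize f (w ++ List.replicate j x ++ [x]) = i at h hge
  rw [e]
  obtain ⟨h1, h2⟩ := erase_replicate x j (i - w.length) (by omega)
  constructor
  · rw [List.getD_append_right _ _ _ _ hge, h2]
  · rw [List.eraseIdx_append_of_length_le hge, h1]

lemma waiting_fin (hf : ∀ s : List Bool, s.length = b + 1 → f s < b + 1) (x : Bool) (k : ℕ) :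
    ∀ (w : List Bool) (j : ℕ), w.length + j = b → w.length ≤ k →
      Waiting f (fin f (w ++ List.replicate j x) (List.replicate k x)) x := by
  induction k with
  | zero =>
    intro w j hl hk
    exact waiting_of_ge hf x w j hl (by omega)
  | succ k ih =>
    intro w j hl hk
    by_cases hge : w.length ≤ f (w ++ List.replicate j x ++ [x])
    · have := waiting_of_ge hf x w j hl hge
      rwa [fin_of_waiting this]
    · push Not at hge
      rw [List.replicate_succ (n := k), fin]
      have e : nxt f (w ++ List.replicate j x) x =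
          w.eraseIdx (f (w ++ List.replicate j x ++ [x])) ++ List.replicate (j + 1) x := by
        unfold nxt
        generalize f (w ++ List.replicate j x ++ [x]) = i at hge
        rw [List.append_assoc, List.eraseIdx_append_of_lt_length hge, List.replicate_succ']
      rw [e]
      apply ih
      · rw [List.length_eraseIdx_of_lt hge]; omega
      · rw [List.length_eraseIdx_of_lt hge]; omega

def rho (f : List Bool → ℕ) (b : ℕ) (r : List Bool) (a : Bool) : ℕ :=
  (runR f r (List.replicate b (!a))).idxOf (!a)

def W (f : List Bool → ℕ) (b n : ℕ) (r : List Bool) (a : Bool) : Set (List Bool) :=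
  {y | (∃ xs : List Bool, xs.length = n ∧ y = runR f r xs) ∧
    ∀ i, i < n → i < rho f b r a → y[i]? = some a}

lemma W_finite (n : ℕ) (r : List Bool) (a : Bool) : (W f b n r a).Finite :=
  fin_of_len (n := n) (by rintro y ⟨⟨xs, h, rfl⟩, -⟩; rw [runR_length, h])

lemma W_cons {n : ℕ} {r : List Bool} {a : Bool} (hw : Waiting f r a) {y : List Bool}
    (hy : y ∈ W f b n r a) : a :: y ∈ W f b (n + 1) r a ∧
      (rho f b r a ≤ n → (a :: y)[rho f b r a]? = some a) := by
  obtain ⟨⟨xs, h1, h2⟩, h3⟩ := hy
  have key : ∀ i, i < n + 1 → i ≤ rho f b r a → (a :: y)[i]? = some a := by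
    intro i hi hi'
    cases i with
    | zero => rfl
    | succ i => simpa using h3 i (by omega) (by omega)
  refine ⟨⟨⟨a :: xs, by simp [h1], ?_⟩, fun i hi hi' => key i hi hi'.le⟩,
    fun h => key _ (by omega) le_rfl⟩
  rw [runR, hw.1, hw.2, h2]

lemma W_nonempty {r : List Bool} {a : Bool} (hw : Waiting f r a) (n : ℕ) :
    (W f b n r a).Nonempty := by
  induction n with
  | zero => exact ⟨[], ⟨[], rfl, rfl⟩, by simp⟩
  | succ n ih =>
    obtain ⟨y, hy⟩ := ih
    exact ⟨_, (W_cons hw hy).1⟩

lemma getElem_lt_idxOf (a : Bool) (V : List Bool) (i : ℕ) (hi : i < V.idxOf (!a)) :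
    V[i]? = some a := by
  induction V generalizing i with
  | nil => simp at hi
  | cons v V ih =>
    by_cases hv : v = !a
    · subst hv; simp at hi
    · have hva : v = a := by cases v <;> cases a <;> simp_all
      rw [List.idxOf_cons_ne _ hv] at hi
      cases i with
      | zero => simp [hva]
      | succ i => simpa using ih i (by omega)

lemma W_switch (hf : ∀ s : List Bool, s.length = b + 1 → f s < b + 1) (hb : 1 ≤ b)
    (hnt : ∀ a : Bool, lab f (List.replicate b (!a)) a = !a)
    {m : ℕ} (hm : 1 ≤ m) {r : List Bool} (hr : r.length = b) {a : Bool} {y : List Bool}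
    (hy : y ∈ W f b m (fin f r (List.replicate b (!a))) (!a)) :
    runR f r (List.replicate b (!a)) ++ y ∈ W f b (b + m) r a ∧
      (runR f r (List.replicate b (!a)) ++ y)[rho f b r a]? = some (!a) := by
  obtain ⟨⟨xs, h1, h2⟩, h3⟩ := hy
  set V := runR f r (List.replicate b (!a)) with hV
  have hVl : V.length = b := by rw [hV, runR_length]; simp
  have hrho : rho f b r a = V.idxOf (!a) := rfl
  have hle : V.idxOf (!a) ≤ b := hVl ▸ List.idxOf_le_length
  refine ⟨⟨⟨List.replicate b (!a) ++ xs, by simp [h1], ?_⟩, ?_⟩, ?_⟩
  · rw [runR_append, h2]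
  · intro i _ hi
    rw [hrho] at hi
    rw [List.getElem?_append_left (by omega)]
    exact getElem_lt_idxOf a V i hi
  · rw [hrho]
    by_cases hmem : (!a) ∈ V
    · have hlt := List.idxOf_lt_length_of_mem hmem
      rw [List.getElem?_append_left hlt, List.getElem?_eq_getElem hlt, List.getElem_idxOf]
    · rw [List.idxOf_eq_length_iff.mpr hmem, List.getElem?_append_right le_rfl, Nat.sub_self]
      have hVa : V.count a = b := by
        rw [← hVl, List.count_eq_length]
        intro v hv
        by_contra hne
        apply hmem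
        have : v = !a := by cases v <;> cases a <;> simp_all
        rwa [← this]
      have hc := count_fin hf a (List.replicate b (!a)) r hr
      rw [← hV, hVa, List.count_replicate] at hc
      have h0 : r.count a ≤ b := hr ▸ List.count_le_length
      have hz : (fin f r (List.replicate b (!a))).count a = 0 := by
        have hne : ((!a) == a) = false := by cases a <;> rfl
        rw [hne] at hc
        simp only [Bool.false_eq_true, if_false] at hc
        omega
      have hfl := fin_length hf (List.replicate b (!a)) r hr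
      have hrep : fin f r (List.replicate b (!a)) = List.replicate b (!a) := by
        rw [List.eq_replicate_iff]
        refine ⟨hfl, fun v hv => ?_⟩
        by_contra hne
        have : v = a := by cases v <;> cases a <;> simp_all
        rw [List.count_eq_zero] at hz
        exact hz (this ▸ hv)
      apply h3 0 (by omega)
      rw [hrep]
      unfold rho
      obtain ⟨c, rfl⟩ : ∃ c, b = c + 1 := ⟨b - 1, by omega⟩
      rw [Bool.not_not, List.replicate_succ (a := a), runR, hnt a, List.idxOf_cons_ne _ (by simp)]
      omega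

lemma W_lower (hf : ∀ s : List Bool, s.length = b + 1 → f s < b + 1) (hb : 1 ≤ b)
    (hnt : ∀ a : Bool, lab f (List.replicate b (!a)) a = !a)
    (l : ℝ) (hl1 : 1 ≤ l) (hl : l ^ b = l ^ (b - 1) + 1) (n : ℕ) :
    ∀ (r : List Bool) (a : Bool), r.length = b → Waiting f r a →
      l ^ n ≤ l ^ b * (W f b n r a).ncard := by
  induction n using Nat.strong_induction_on with
  | _ n ih =>
  intro r a hr hw
  by_cases hn : n ≤ b
  · have h1 : 1 ≤ (W f b n r a).ncard :=
      (Set.ncard_pos (W_finite n r a)).mpr (W_nonempty hw n)
    have h2 : (1 : ℝ) ≤ (W f b n r a).ncard := by exact_mod_cast h1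
    have h3 : l ^ n ≤ l ^ b := pow_le_pow_right₀ hl1 hn
    have h4 : 0 ≤ l ^ b := by positivity
    nlinarith
  push Not at hn
  obtain ⟨m, rfl⟩ : ∃ m, n = b + m := ⟨n - b, by omega⟩
  have hm : 1 ≤ m := by omega
  set r' := fin f r (List.replicate b (!a)) with hr'
  have hw' : Waiting f r' (!a) := by
    have := waiting_fin hf (!a) b r 0 (by omega) (by omega)
    simpa using this
  have i1 := ih (b + m - 1) (by omega) r a hr hw
  have i2 := ih m (by omega) r' (!a) (fin_length hf _ r hr) hw'
  set V := runR f r (List.replicate b (!a)) with hV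
  have hrho : rho f b r a ≤ b := by
    have h1 : V.length = b := by rw [hV, runR_length]; simp
    have h2 : V.idxOf (!a) ≤ V.length := List.idxOf_le_length
    rw [h1] at h2
    exact h2
  have hsub : (fun y => a :: y) '' W f b (b + m - 1) r a ∪ (fun y => V ++ y) '' W f b m r' (!a) ⊆
      W f b (b + m) r a := by
    rintro y (⟨z, hz, rfl⟩ | ⟨z, hz, rfl⟩)
    · have := (W_cons hw hz).1
      rwa [show b + m - 1 + 1 = b + m by omega] at this
    · exact (W_switch hf hb hnt hm hr hz).1
  have hdisj : Disjoint ((fun y => a :: y) '' W f b (b + m - 1) r a)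
      ((fun y => V ++ y) '' W f b m r' (!a)) := by
    rw [Set.disjoint_left]
    rintro y ⟨z, hz, rfl⟩ ⟨z', hz', he⟩
    have h1 := (W_cons hw hz).2 (by omega)
    have h2 := (W_switch hf hb hnt hm hr hz').2
    simp only at he
    rw [he, h1] at h2
    cases a <;> simp at h2
  have hc := Set.ncard_le_ncard hsub (W_finite _ _ _)
  rw [Set.ncard_union_eq hdisj ((W_finite _ _ _).image _) ((W_finite _ _ _).image _),
    Set.ncard_image_of_injective _ List.cons_injective,
    Set.ncard_image_of_injective _ (List.append_right_injective V)] at hc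
  have hc' : ((W f b (b + m - 1) r a).ncard : ℝ) + (W f b m r' (!a)).ncard ≤
      (W f b (b + m) r a).ncard := by exact_mod_cast hc
  have e1 : l ^ (b + m) = l ^ (b + m - 1) + l ^ m := by
    rw [pow_add, hl, add_mul, one_mul, ← pow_add]
    congr 2
    omega
  have h4 : 0 ≤ l ^ b := by positivity
  nlinarith

lemma runR_mem (n : ℕ) {r xs : List Bool} (hr : r.length = b) (hx : xs.length = n) :
    runR f r xs ∈ outputs f (b + 1) n := by
  cases xs with
  | nil => exact ⟨r ++ [false], [], by simp [hr], hx, rfl⟩
  | cons x xs =>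
    exact ⟨r ++ [x], xs ++ [false], by simp [hr], by simpa using hx, (run_eq f r x false xs).symm⟩

lemma ncard_all (n : ℕ) : 2 ^ n ≤ {y : List Bool | y.length = n}.ncard := by
  have h : (List.ofFn : (Fin n → Bool) → List Bool) '' Set.univ ⊆ {y : List Bool | y.length = n} := by
    rintro y ⟨g, -, rfl⟩
    simp
  have := Set.ncard_le_ncard h (List.finite_length_eq Bool n)
  rw [Set.ncard_image_of_injective _ List.ofFn_injective, Set.ncard_univ] at this
  simpa using this

lemma lower (hf : ∀ s : List Bool, s.length = b + 1 → f s < b + 1) (hb : 1 ≤ b)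
    (l : ℝ) (hl1 : 1 ≤ l) (hl2 : l ≤ 2) (hl : l ^ b = l ^ (b - 1) + 1) (n : ℕ) :
    l ^ n ≤ l ^ b * (outputs f (b + 1) n).ncard := by
  by_cases hnt : ∀ a : Bool, lab f (List.replicate b (!a)) a = !a
  · set r := fin f (List.replicate b false) (List.replicate b true) with hr
    have hw : Waiting f r true := by
      have := waiting_fin hf true b (List.replicate b false) 0 (by simp) (by simp)
      simpa using this
    have hrl : r.length = b := fin_length hf _ _ (by simp)
    refine (W_lower hf hb hnt l hl1 hl n r true hrl hw).trans ?_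
    have hsub : W f b n r true ⊆ outputs f (b + 1) n := by
      rintro y ⟨⟨xs, h1, rfl⟩, -⟩
      exact runR_mem n hrl h1
    have := Set.ncard_le_ncard hsub (outputs_finite _ _ _)
    have h4 : 0 ≤ l ^ b := by positivity
    gcongr
  · push Not at hnt
    obtain ⟨a, ha⟩ := hnt
    have ha' : lab f (List.replicate b (!a)) a = a := by
      revert ha
      cases lab f (List.replicate b (!a)) a <;> cases a <;> simp
    have hw1 : Waiting f (List.replicate b (!a)) (!a) := by
      have := waiting_of_ge hf (!a) [] b (by simp) (by simp)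
      simpa using this
    have hw2 : Waiting f (List.replicate b (!a)) a := by
      have h1 : f (List.replicate b (!a) ++ [a]) ≥ b := by
        by_contra hlt
        push Not at hlt
        unfold lab at ha'
        rw [List.getD_append _ _ _ _ (by simpa using hlt)] at ha'
        simp [List.getD, hlt] at ha'
      have := waiting_of_ge hf a (List.replicate b (!a)) 0 (by simp) (by simpa using h1)
      simpa using this
    have hall : ∀ xs : List Bool, runR f (List.replicate b (!a)) xs = xs := by
      intro xs
      induction xs with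
      | nil => rfl
      | cons x xs ih =>
        have hw : Waiting f (List.replicate b (!a)) x := by
          by_cases hx : x = a
          · rwa [hx]
          · have : x = !a := by cases x <;> cases a <;> simp_all
            rwa [this]
        rw [runR, hw.1, hw.2, ih]
    have hsub : {y : List Bool | y.length = n} ⊆ outputs f (b + 1) n := by
      intro y hy
      rw [← hall y]
      exact runR_mem n (by simp) hy
    have h1 := (ncard_all n).trans (Set.ncard_le_ncard hsub (outputs_finite _ _ _))
    have h2 : (2 : ℝ) ^ n ≤ (outputs f (b + 1) n).ncard := by exact_mod_cast h1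
    have h3 : l ^ n ≤ 2 ^ n := pow_le_pow_left₀ (by linarith) hl2 n
    have h4 : 1 ≤ l ^ b := one_le_pow₀ hl1
    have h5 : (0 : ℝ) ≤ (outputs f (b + 1) n).ncard := by positivity
    nlinarith

end lower

def g : List Bool → ℕ
  | [] => 0
  | a :: t => if a ∈ t then t.idxOf a + 1 else 0

lemma g_lt (β : ℕ) (hβ : 1 ≤ β) (s : List Bool) (hs : s.length = β) : g s < β := by
  cases s with
  | nil => simp at hs; omega
  | cons a t =>
    simp only [g]
    split_ifs with h
    · have := List.idxOf_lt_length_of_mem h
      simp at hs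
      omega
    · omega

def A (b n : ℕ) (a : Bool) (k : ℕ) : Set (List Bool) :=
  {y | ∃ t xs : List Bool, t.length = b ∧ k ≤ t.count a ∧ xs.length = n ∧ y = run g (a :: t) xs}

lemma A_finite (b n : ℕ) (a : Bool) (k : ℕ) : (A b n a k).Finite :=
  fin_of_len (n := n) (by rintro y ⟨t, xs, -, -, h, rfl⟩; rw [run_length, h])

lemma step_mem (b n : ℕ) (a : Bool) (k : ℕ) (t xs : List Bool) (x : Bool) (ht : t.length = b)
    (hk : k + 1 ≤ t.count a) (hx : xs.length = n) :
    run g (a :: t) (x :: xs) ∈ (fun y => a :: y) '' A b n a k := by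
  have hmem : a ∈ t := List.count_pos_iff.mp (by omega)
  have hlt := List.idxOf_lt_length_of_mem hmem
  have hg : t.getD (t.idxOf a) false = a := by
    rw [List.getD_eq_getElem _ _ hlt, List.getElem_idxOf]
  refine ⟨run g (a :: (t.eraseIdx (t.idxOf a) ++ [x])) xs,
    ⟨_, xs, ?_, ?_, hx, rfl⟩, ?_⟩
  · rw [List.length_append, List.length_eraseIdx_of_lt hlt]
    simp
    omega
  · have := count_erase a t _ hlt
    rw [hg] at this
    simp only [List.count_append, List.count_singleton_self] at this ⊢
    omega
  · simp only [run, g, hmem, if_true, List.getD_cons_succ, hg, List.eraseIdx_cons_succ,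
      List.cons_append]

lemma step_not_mem (b n : ℕ) (hb : 1 ≤ b) (a : Bool) (t xs : List Bool) (x : Bool)
    (ht : t.length = b) (hk : t.count a = 0) (hx : xs.length = n) :
    run g (a :: t) (x :: xs) ∈ (fun y => a :: y) '' A b n (!a) (b - 1) := by
  have hmem : a ∉ t := List.count_eq_zero.mp hk
  obtain ⟨c, rfl⟩ : ∃ c, b = c + 1 := ⟨b - 1, by omega⟩
  have hrep : t = List.replicate (c + 1) (!a) := by
    rw [List.eq_replicate_iff]
    refine ⟨ht, fun v hv => ?_⟩
    by_contra hne
    have : v = a := by cases v <;> cases a <;> simp_all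
    exact hmem (this ▸ hv)
  refine ⟨run g ((!a) :: (List.replicate c (!a) ++ [x])) xs, ⟨_, xs, by simp, by simp, hx, rfl⟩, ?_⟩
  simp only [run, g, hmem, if_false, List.getD_cons_zero, List.eraseIdx_cons_zero]
  rw [hrep, List.replicate_succ, List.cons_append]

lemma A_upper (b : ℕ) (hb : 1 ≤ b) (l : ℝ) (hl1 : 1 ≤ l) (hl : l ^ b = l ^ (b - 1) + 1) (n : ℕ) :
    ∀ (a : Bool) (k : ℕ), k ≤ b - 1 → ((A b n a k).ncard : ℝ) * l ^ k ≤ l ^ (b - 1) * l ^ n := by
  induction n with
  | zero =>
    intro a k hk
    have h1 : A b 0 a k ⊆ {[]} := by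
      rintro y ⟨t, xs, -, -, h, rfl⟩
      rw [List.length_eq_zero_iff.mp h]
      rfl
    have h2 := Set.ncard_le_ncard h1
    rw [Set.ncard_singleton] at h2
    have h3 : ((A b 0 a k).ncard : ℝ) ≤ 1 := by exact_mod_cast h2
    have h4 : l ^ k ≤ l ^ (b - 1) := pow_le_pow_right₀ hl1 hk
    have h5 : 0 ≤ l ^ k := by positivity
    rw [pow_zero]
    nlinarith
  | succ n ih =>
    intro a k hk
    cases k with
    | succ k =>
      have h1 : A b (n + 1) a (k + 1) ⊆ (fun y => a :: y) '' A b n a k := by
        rintro y ⟨t, xs, ht, hc, h, rfl⟩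
        obtain ⟨x, xs, rfl⟩ := List.exists_cons_of_length_eq_add_one h
        exact step_mem b n a k t xs x ht hc (by simpa using h)
      have h2 := Set.ncard_le_ncard h1 ((A_finite _ _ _ _).image _)
      rw [Set.ncard_image_of_injective _ List.cons_injective] at h2
      have h3 : ((A b (n + 1) a (k + 1)).ncard : ℝ) ≤ (A b n a k).ncard := by exact_mod_cast h2
      have h4 := ih a k (by omega)
      calc _ ≤ ((A b n a k).ncard : ℝ) * l ^ (k + 1) := by gcongr
        _ = ((A b n a k).ncard : ℝ) * l ^ k * l := by ring
        _ ≤ l ^ (b - 1) * l ^ n * l := by gcongr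
        _ = _ := by ring
    | zero =>
      have h1 : A b (n + 1) a 0 ⊆ (fun y => a :: y) '' A b n a 0 ∪
          (fun y => a :: y) '' A b n (!a) (b - 1) := by
        rintro y ⟨t, xs, ht, -, h, rfl⟩
        obtain ⟨x, xs, rfl⟩ := List.exists_cons_of_length_eq_add_one h
        by_cases hc : t.count a = 0
        · exact Or.inr (step_not_mem b n hb a t xs x ht hc (by simpa using h))
        · exact Or.inl (step_mem b n a 0 t xs x ht (by omega) (by simpa using h))
      have h2 := (Set.ncard_le_ncard h1
        (((A_finite _ _ _ _).image _).union ((A_finite _ _ _ _).image _))).trans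
        (Set.ncard_union_le _ _)
      rw [Set.ncard_image_of_injective _ List.cons_injective,
        Set.ncard_image_of_injective _ List.cons_injective] at h2
      have h3 : ((A b (n + 1) a 0).ncard : ℝ) ≤ (A b n a 0).ncard + (A b n (!a) (b - 1)).ncard := by
        exact_mod_cast h2
      have h4 := ih a 0 (by omega)
      have h5 := ih (!a) (b - 1) le_rfl
      have h6 : 0 < l ^ (b - 1) := by positivity
      have h7 : ((A b n (!a) (b - 1)).ncard : ℝ) ≤ l ^ n := by
        rw [mul_comm] at h5
        exact le_of_mul_le_mul_left h5 h6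
      have h8 : l ^ (b - 1) * l ^ (n + 1) = l ^ (b - 1) * l ^ n + l ^ n := by
        have : l ^ (b - 1) * l = l ^ b := by
          rw [← pow_succ]; congr 1; omega
        calc l ^ (b - 1) * l ^ (n + 1) = (l ^ (b - 1) * l) * l ^ n := by ring
          _ = _ := by rw [this, hl]; ring
      rw [pow_zero, mul_one] at h4 ⊢
      linarith

lemma upper (b : ℕ) (hb : 1 ≤ b) (l : ℝ) (hl1 : 1 ≤ l) (hl : l ^ b = l ^ (b - 1) + 1) (n : ℕ) :
    ((outputs g (b + 1) n).ncard : ℝ) ≤ 2 * l ^ (b - 1) * l ^ n := by
  have h1 : outputs g (b + 1) n ⊆ A b n true 0 ∪ A b n false 0 := by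
    rintro y ⟨s, xs, hs, hx, rfl⟩
    obtain ⟨a, t, rfl⟩ := List.exists_cons_of_length_eq_add_one hs
    cases a
    · exact Or.inr ⟨t, xs, by simpa using hs, by simp, hx, rfl⟩
    · exact Or.inl ⟨t, xs, by simpa using hs, by simp, hx, rfl⟩
  have h2 := (Set.ncard_le_ncard h1 ((A_finite _ _ _ _).union (A_finite _ _ _ _))).trans
    (Set.ncard_union_le _ _)
  have h3 : ((outputs g (b + 1) n).ncard : ℝ) ≤ (A b n true 0).ncard + (A b n false 0).ncard := by
    exact_mod_cast h2
  have h4 := A_upper b hb l hl1 hl n true 0 (by omega)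
  have h5 := A_upper b hb l hl1 hl n false 0 (by omega)
  rw [pow_zero, mul_one] at h4 h5
  linarith

theorem result (β : ℕ) (hβ : 2 ≤ β) (l : ℝ) (hpos : 0 < l)
    (hroot : l ^ (β - 1) - l ^ (β - 2) - 1 = 0) :
    Tendsto (fun n : ℕ => Real.logb 2 (minOutputs β n) / n) atTop (𝓝 (Real.logb 2 l)) := by
  obtain ⟨b, rfl⟩ : ∃ b, β = b + 1 := ⟨β - 1, by omega⟩
  have hb : 1 ≤ b := by omega
  have hl : l ^ b = l ^ (b - 1) + 1 := by
    rw [show b + 1 - 1 = b by omega, show b + 1 - 2 = b - 1 by omega] at hroot
    linarith
  have hmul : l ^ (b - 1) * l = l ^ b := by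
    rw [← pow_succ]; congr 1; omega
  have hp : 0 < l ^ (b - 1) := by positivity
  have hl1 : 1 ≤ l := by nlinarith
  have hp1 : 1 ≤ l ^ (b - 1) := one_le_pow₀ hl1
  have hl2 : l ≤ 2 := by nlinarith
  have hlow : ∀ n, l ^ n ≤ l ^ b * (minOutputs (b + 1) n : ℝ) := by
    intro n
    have hne : {m | ∃ f : List Bool → ℕ, (∀ s : List Bool, s.length = b + 1 → f s < b + 1) ∧
        (outputs f (b + 1) n).ncard = m}.Nonempty := ⟨_, g, g_lt _ (by omega), rfl⟩
    obtain ⟨f, hf, he⟩ := Nat.sInf_mem hne
    have := lower hf hb l hl1 hl2 hl n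
    rw [he] at this
    exact this
  have hup : ∀ n, (minOutputs (b + 1) n : ℝ) ≤ 2 * l ^ (b - 1) * l ^ n := by
    intro n
    refine le_trans ?_ (upper b hb l hl1 hl n)
    have : minOutputs (b + 1) n ≤ (outputs g (b + 1) n).ncard :=
      Nat.sInf_le ⟨g, g_lt _ (by omega), rfl⟩
    exact_mod_cast this
  have hN : ∀ n, (0 : ℝ) < minOutputs (b + 1) n := by
    intro n
    have h1 := hlow n
    have h2 : 0 < l ^ n := by positivity
    have h3 : 0 < l ^ b := by positivity
    by_contra h
    push Not at h
    nlinarith
  have t1 : Tendsto (fun n : ℕ => Real.logb 2 l - Real.logb 2 (l ^ b) / n) atTop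
      (𝓝 (Real.logb 2 l)) := by
    simpa using (tendsto_const_div_atTop_nhds_zero_nat (Real.logb 2 (l ^ b))).const_sub
      (Real.logb 2 l)
  have t2 : Tendsto (fun n : ℕ => Real.logb 2 l + Real.logb 2 (2 * l ^ (b - 1)) / n) atTop
      (𝓝 (Real.logb 2 l)) := by
    simpa using (tendsto_const_div_atTop_nhds_zero_nat
      (Real.logb 2 (2 * l ^ (b - 1)))).const_add (Real.logb 2 l)
  refine tendsto_of_tendsto_of_tendsto_of_le_of_le' t1 t2 ?_ ?_
  · filter_upwards [eventually_ge_atTop 1] with n hn
    have hn' : (0 : ℝ) < n := by exact_mod_cast hn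
    have h1 := Real.logb_le_logb_of_le (b := 2) (by norm_num) (by positivity) (hlow n)
    rw [Real.logb_mul (by positivity) (hN n).ne', Real.logb_pow] at h1
    rw [le_div_iff₀ hn', sub_mul, div_mul_cancel₀ _ hn'.ne']
    linarith
  · filter_upwards [eventually_ge_atTop 1] with n hn
    have hn' : (0 : ℝ) < n := by exact_mod_cast hn
    have h1 := Real.logb_le_logb_of_le (b := 2) (by norm_num) (hN n) (hup n)
    rw [Real.logb_mul (by positivity) (by positivity), Real.logb_pow 2 l n] at h1
    rw [div_le_iff₀ hn', add_mul, div_mul_cancel₀ _ hn'.ne']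
    linarith

end Pool.Agent.Results.MP_8dea01_co.Rate
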